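import Mathlib

/-!
# The Hilbertian sum of two uniformly convex spaces is uniformly convex, and what happens to the
Grothendieck property of spaces of operators under complemented subspaces.
-/

namespace Pool.Agent.KS6_5.Groth

open Filter Topology

theorem quad {E : Type*} [NormedAddCommGroup E] [NormedSpace ℝ E] [UniformConvexSpace E]
    {ε : ℝ} (hε : 0 < ε) :
    ∃ δ : ℝ, 0 < δ ∧ ∀ u v : E, ‖u‖ ≤ 1 → ‖v‖ ≤ 1 → ε ≤ ‖u - v‖ →
      δ ≤ 2 * ‖u‖ ^ 2 + 2 * ‖v‖ ^ 2 - ‖u + v‖ ^ 2 := by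
  obtain ⟨d, hd, h⟩ := exists_forall_closed_ball_dist_add_le_two_sub E hε
  set m := min d 1 with hm
  have m0 : 0 < m := lt_min hd one_pos
  have m1 : m ≤ 1 := min_le_right _ _
  have md : m ≤ d := min_le_left _ _
  refine ⟨ε ^ 2 * m ^ 2 / 16, by positivity, ?_⟩
  -- the case ‖v‖ ≤ ‖u‖
  have key : ∀ u v : E, ‖u‖ ≤ 1 → ‖v‖ ≤ ‖u‖ → ε ≤ ‖u - v‖ →
      ε ^ 2 * m ^ 2 / 16 ≤ 2 * ‖u‖ ^ 2 + 2 * ‖v‖ ^ 2 - ‖u + v‖ ^ 2 := by
    intro u v hu hv huv
    have a1 : ε ≤ 2 * ‖u‖ := by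
      have := norm_sub_le u v
      linarith
    have a0 : 0 < ‖u‖ := by linarith
    set a := ‖u‖ with ha
    have n1 : ‖a⁻¹ • u‖ ≤ 1 := by
      rw [norm_smul, norm_inv, Real.norm_of_nonneg a0.le, ← ha, inv_mul_cancel₀ a0.ne']
    have n2 : ‖a⁻¹ • v‖ ≤ 1 := by
      rw [norm_smul, norm_inv, Real.norm_of_nonneg a0.le, inv_mul_le_one₀ a0]
      exact hv
    have n3 : ε ≤ ‖a⁻¹ • u - a⁻¹ • v‖ := by
      rw [← smul_sub, norm_smul, norm_inv, Real.norm_of_nonneg a0.le]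
      refine huv.trans ?_
      exact le_mul_of_one_le_left (norm_nonneg _) ((one_le_inv₀ a0).2 hu)
    have n4 := h n1 n2 n3
    rw [← smul_add, norm_smul, norm_inv, Real.norm_of_nonneg a0.le,
      inv_mul_le_iff₀ a0] at n4
    have s0 := norm_nonneg (u + v)
    have s1 := norm_add_le u v
    rw [← ha] at s1
    have c0 := norm_nonneg v
    set s := ‖u + v‖ with hs
    set c := ‖v‖ with hc
    have n5 : s ≤ 2 * a - a * m := by nlinarith
    have am : 0 < a * m := mul_pos a0 m0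
    have e1 : (ε * m) ^ 2 ≤ (2 * (a * m)) ^ 2 := by
      refine pow_le_pow_left₀ (by positivity) ?_ 2
      nlinarith
    by_cases ht : a - c ≤ a * m / 2
    · have t1 : a * m / 2 ≤ (a + c) - s := by linarith
      have t2 : a ≤ a + c + s := by linarith
      have t3 : a * m / 2 * a ≤ ((a + c) - s) * (a + c + s) :=
        mul_le_mul t1 t2 a0.le (by linarith)
      have t4 : (a * m) ^ 2 ≤ a * m * a := by nlinarith
      nlinarith [sq_nonneg (a - c)]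
    · push Not at ht
      have t1 : (a * m / 2) ^ 2 ≤ (a - c) ^ 2 := pow_le_pow_left₀ (by positivity) ht.le 2
      have t2 : s ^ 2 ≤ (a + c) ^ 2 := pow_le_pow_left₀ s0 s1 2
      nlinarith
  intro u v hu hv huv
  rcases le_total ‖v‖ ‖u‖ with hvu | hvu
  · exact key u v hu hvu huv
  · have := key v u hv hvu (by rwa [norm_sub_rev])
    rw [add_comm v u] at this
    linarith

theorem quad_nonneg {E : Type*} [NormedAddCommGroup E] (u v : E) :
    0 ≤ 2 * ‖u‖ ^ 2 + 2 * ‖v‖ ^ 2 - ‖u + v‖ ^ 2 := by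
  have h := norm_add_le u v
  have h1 := pow_le_pow_left₀ (norm_nonneg _) h 2
  nlinarith [sq_nonneg (‖u‖ - ‖v‖)]

/-- The Hilbertian sum of two uniformly convex spaces is uniformly convex. -/
theorem uniformConvex_prod (E F : Type*) [NormedAddCommGroup E] [NormedSpace ℝ E]
    [UniformConvexSpace E] [NormedAddCommGroup F] [NormedSpace ℝ F] [UniformConvexSpace F] :
    UniformConvexSpace (WithLp 2 (E × F)) := by
  refine ⟨fun ε hε => ?_⟩
  obtain ⟨d1, hd1, h1⟩ := quad (E := E) (ε := ε / 2) (by positivity)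
  obtain ⟨d2, hd2, h2⟩ := quad (E := F) (ε := ε / 2) (by positivity)
  refine ⟨min (min d1 d2) 1 / 4, by positivity, fun x hx y hy hxy => ?_⟩
  set m := min (min d1 d2) 1 with hm
  have m0 : 0 < m := lt_min (lt_min hd1 hd2) one_pos
  have md1 : m ≤ d1 := (min_le_left _ _).trans (min_le_left _ _)
  have md2 : m ≤ d2 := (min_le_left _ _).trans (min_le_right _ _)
  have m1 : m ≤ 1 := min_le_right _ _
  have ex := WithLp.prod_norm_sq_eq_of_L2 x
  have ey := WithLp.prod_norm_sq_eq_of_L2 y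
  have es := WithLp.prod_norm_sq_eq_of_L2 (x + y)
  have ed := WithLp.prod_norm_sq_eq_of_L2 (x - y)
  rw [hx] at ex
  rw [hy] at ey
  simp only [WithLp.add_fst, WithLp.add_snd] at es
  simp only [WithLp.sub_fst, WithLp.sub_snd] at ed
  have q1 := quad_nonneg x.fst y.fst
  have q2 := quad_nonneg x.snd y.snd
  have x1 : ‖x.fst‖ ≤ 1 := by nlinarith [sq_nonneg ‖x.snd‖, norm_nonneg x.fst]
  have x2 : ‖x.snd‖ ≤ 1 := by nlinarith [sq_nonneg ‖x.fst‖, norm_nonneg x.snd]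
  have y1 : ‖y.fst‖ ≤ 1 := by nlinarith [sq_nonneg ‖y.snd‖, norm_nonneg y.fst]
  have y2 : ‖y.snd‖ ≤ 1 := by nlinarith [sq_nonneg ‖y.fst‖, norm_nonneg y.snd]
  have main : ‖x + y‖ ^ 2 ≤ 4 - m := by
    by_cases hc : ε / 2 ≤ ‖x.fst - y.fst‖
    · have := h1 _ _ x1 y1 hc
      nlinarith
    · push Not at hc
      have hc2 : ε / 2 ≤ ‖x.snd - y.snd‖ := by
        by_contra hcon
        push Not at hcon
        have a1 := pow_le_pow_left₀ (norm_nonneg _) hc.le 2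
        have a2 := pow_le_pow_left₀ (norm_nonneg _) hcon.le 2
        have a3 := pow_le_pow_left₀ hε.le hxy 2
        nlinarith
      have := h2 _ _ x2 y2 hc2
      nlinarith
  have n0 := norm_nonneg (x + y)
  by_contra hcon
  push Not at hcon
  have := pow_le_pow_left₀ (by linarith) hcon.le 2
  nlinarith

/-- `B(X₁, X₂)` has the Grothendieck property: every weak*-null sequence of functionals on it is
weakly null. -/
def GrothendieckOps (X₁ X₂ : Type*) [NormedAddCommGroup X₁] [NormedSpace ℝ X₁]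
    [NormedAddCommGroup X₂] [NormedSpace ℝ X₂] : Prop :=
  ∀ f : ℕ → ((X₁ →L[ℝ] X₂) →L[ℝ] ℝ),
    (∀ T : X₁ →L[ℝ] X₂, Tendsto (fun n => f n T) atTop (𝓝 0)) →
    ∀ φ : ((X₁ →L[ℝ] X₂) →L[ℝ] ℝ) →L[ℝ] ℝ, Tendsto (fun n => φ (f n)) atTop (𝓝 0)

/-- The Grothendieck property of `B(X₁, X₂)` passes to `B(E₁, E₂)` for complemented subspaces. -/
theorem GrothendieckOps.of_complemented {X₁ X₂ E₁ E₂ : Type*}
    [NormedAddCommGroup X₁] [NormedSpace ℝ X₁] [NormedAddCommGroup X₂] [NormedSpace ℝ X₂]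
    [NormedAddCommGroup E₁] [NormedSpace ℝ E₁] [NormedAddCommGroup E₂] [NormedSpace ℝ E₂]
    (i₁ : E₁ →L[ℝ] X₁) (p₁ : X₁ →L[ℝ] E₁) (h₁ : ∀ e, p₁ (i₁ e) = e)
    (i₂ : E₂ →L[ℝ] X₂) (p₂ : X₂ →L[ℝ] E₂) (h₂ : ∀ e, p₂ (i₂ e) = e)
    (h : GrothendieckOps X₁ X₂) : GrothendieckOps E₁ E₂ := by
  intro f hf φ
  -- restriction and extension of operators
  let R : (X₁ →L[ℝ] X₂) →L[ℝ] (E₁ →L[ℝ] E₂) :=
    (ContinuousLinearMap.compL ℝ E₁ X₂ E₂ p₂).comp
      ((ContinuousLinearMap.compL ℝ E₁ X₁ X₂).flip i₁)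
  let Ex : (E₁ →L[ℝ] E₂) →L[ℝ] (X₁ →L[ℝ] X₂) :=
    (ContinuousLinearMap.compL ℝ X₁ E₂ X₂ i₂).comp
      ((ContinuousLinearMap.compL ℝ X₁ E₁ E₂).flip p₁)
  have hR : ∀ T e, R T e = p₂ (T (i₁ e)) := fun T e => rfl
  have hE : ∀ T x, Ex T x = i₂ (T (p₁ x)) := fun T x => rfl
  have hRE : R.comp Ex = ContinuousLinearMap.id ℝ _ := by
    ext T e
    show R (Ex T) e = T e
    rw [hR, hE, h₁, h₂]
  let Φ : ((X₁ →L[ℝ] X₂) →L[ℝ] ℝ) →L[ℝ] ℝ :=
    φ.comp ((ContinuousLinearMap.compL ℝ (E₁ →L[ℝ] E₂) (X₁ →L[ℝ] X₂) ℝ).flip Ex)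
  have := h (fun n => (f n).comp R) (fun T => hf (R T)) Φ
  refine this.congr fun n => ?_
  show φ (((f n).comp R).comp Ex) = φ (f n)
  rw [ContinuousLinearMap.comp_assoc, hRE, ContinuousLinearMap.comp_id]

end Pool.Agent.KS6_5.Groth
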